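import Mathlib

namespace Pool.Agent.Results.MP_4a71d8_al.NotInterClosed

/-- The principal right ideal `s S` of a monoid. -/
def rightIdeal {S : Type} [Monoid S] (s : S) : Set S := {x | ∃ y : S, x = s * y}

/-- `S` is left cancellative, and any two principal right ideals are disjoint or meet in a
principal right ideal. -/
def IsRightLCM (S : Type) [Monoid S] : Prop :=
  (∀ a b c : S, a * b = a * c → b = c) ∧
  ∀ s t : S, rightIdeal s ∩ rightIdeal t = ∅ ∨ ∃ r : S, rightIdeal s ∩ rightIdeal t = rightIdeal r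

/-- The core of `S`: the elements `a` such that `a S` meets every `s S`. -/
def coreSet (S : Type) [Monoid S] : Set S :=
  {a | ∀ s : S, (rightIdeal a ∩ rightIdeal s).Nonempty}

/-- The core irreducible elements of `S`. -/
def coreIrreducibles (S : Type) [Monoid S] : Set S :=
  {s | s ∉ coreSet S ∧ ∀ t a : S, a ∈ coreSet S → s = t * a → IsUnit a}

/-- Every right LCM of two core irreducible elements is core irreducible. -/
def InterClosed (S : Type) [Monoid S] : Prop :=
  ∀ s t r : S, s ∈ coreIrreducibles S → t ∈ coreIrreducibles S →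
    rightIdeal s ∩ rightIdeal t = rightIdeal r → r ∈ coreIrreducibles S

/-- Every element is a product `u a` with `u` core irreducible or `1` and `a` in the core. -/
def CoreFactorable (S : Type) [Monoid S] : Prop :=
  ∀ s : S, ∃ u a : S, (u ∈ coreIrreducibles S ∨ u = 1) ∧ a ∈ coreSet S ∧ s = u * a

/-- The inclusion of `ℕ × ℕ` in `ℤ × ℤ`. -/
def toZ (a : ℕ × ℕ) : ℤ × ℤ := (a.1, a.2)

lemma toZ_add (a b : ℕ × ℕ) : toZ (a + b) = toZ a + toZ b := by
  simp [toZ]

lemma toZ_inj {a b : ℕ × ℕ} (h : toZ a = toZ b) : a = b := by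
  simp only [toZ, Prod.mk.injEq, Nat.cast_inj] at h
  exact Prod.ext h.1 h.2

/-- The example. `core a` stands for `a` in `ℕ × ℕ`, and `word g w x` for the element
`g t w₁ t ⋯ wₙ t x` of the free product of `ℤ × ℤ` and the infinite cyclic group on `t`. -/
inductive M : Type
  | core (a : ℕ × ℕ) : M
  | word (g : ℤ × ℤ) (w : List (ℤ × ℤ)) (x : ℕ × ℕ) (hx : x ≠ 0) : M

namespace M

lemma add_ne {x : ℕ × ℕ} (hx : x ≠ 0) (y : ℕ × ℕ) : x + y ≠ 0 := by
  intro h
  apply hx
  have h1 := congrArg Prod.fst h
  have h2 := congrArg Prod.snd h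
  simp at h1 h2
  ext <;> simp [h1, h2]

/-- The multiplication of `M`. -/
def mul : M → M → M
  | core a, core b => core (a + b)
  | core a, word g w x hx => word (toZ a + g) w x hx
  | word g w x hx, core b => word g w (x + b) (add_ne hx b)
  | word g w x _, word h v y hy => word g (w ++ (toZ x + h) :: v) y hy

instance : Mul M := ⟨mul⟩
instance : One M := ⟨core 0⟩

lemma core_mul_core (a b : ℕ × ℕ) : core a * core b = core (a + b) := rfl
lemma core_mul_word (a : ℕ × ℕ) (g w x hx) :
    core a * word g w x hx = word (toZ a + g) w x hx := rfl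
lemma word_mul_core (g w x hx) (b : ℕ × ℕ) :
    word g w x hx * core b = word g w (x + b) (add_ne hx b) := rfl
lemma word_mul_word (g w x hx h v y hy) :
    word g w x hx * word h v y hy = word g (w ++ (toZ x + h) :: v) y hy := rfl
lemma one_def : (1 : M) = core 0 := rfl

instance instMonoid : Monoid M where
  mul_assoc := by
    rintro (a | ⟨g, w, x, hx⟩) (b | ⟨h, v, y, hy⟩) (c | ⟨k, u, z, hz⟩) <;>
      simp only [core_mul_core, core_mul_word, word_mul_core, word_mul_word, add_assoc, toZ_add,
        List.append_assoc, List.cons_append]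
  one_mul := by
    rintro (a | ⟨g, w, x, hx⟩)
    · simp [one_def, core_mul_core]
    · simp [one_def, core_mul_word, toZ]
  mul_one := by
    rintro (a | ⟨g, w, x, hx⟩)
    · simp [one_def, core_mul_core]
    · simp [one_def, word_mul_core]

/-- The shift action of `ℤ × ℤ` on the free group on the set `ℤ × ℤ`. -/
def shift : Multiplicative (ℤ × ℤ) →* MulAut (FreeGroup (ℤ × ℤ)) where
  toFun p := FreeGroup.freeGroupCongr (Equiv.addLeft p.toAdd)
  map_one' := by
    ext x
    simp
  map_mul' p q := by
    ext x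
    rw [MulAut.mul_apply]
    simp only [FreeGroup.freeGroupCongr_apply, FreeGroup.map.comp]
    congr 1
    ext x
    simp [add_assoc]

lemma shift_mk (p : ℤ × ℤ) (L : List ((ℤ × ℤ) × Bool)) :
    shift (Multiplicative.ofAdd p) (FreeGroup.mk L) =
      FreeGroup.mk (L.map fun z => (p + z.1, z.2)) := rfl

/-- The group `G`, isomorphic to the free product of `ℤ × ℤ` and `ℤ`. -/
abbrev G : Type := FreeGroup (ℤ × ℤ) ⋊[shift] Multiplicative (ℤ × ℤ)

/-- The element `g t`. -/
def gt (g : ℤ × ℤ) : G := ⟨FreeGroup.of g, Multiplicative.ofAdd g⟩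

/-- The element `x` in `ℤ × ℤ`. -/
def gz (x : ℤ × ℤ) : G := ⟨1, Multiplicative.ofAdd x⟩

lemma gz_mul_gz (x y : ℤ × ℤ) : gz x * gz y = gz (x + y) := by
  apply SemidirectProduct.ext
  · rw [SemidirectProduct.mul_left]
    simp only [gz, map_one, mul_one]
  · rfl

lemma gz_mul_gt (x y : ℤ × ℤ) : gz x * gt y = gt (x + y) := by
  apply SemidirectProduct.ext
  · rw [SemidirectProduct.mul_left]
    simp only [gz, gt, one_mul]
    rfl
  · rfl

/-- The embedding of `M` in `G`, as a function. -/
def emb : M → G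
  | core a => gz (toZ a)
  | word g w x _ => gt g * (w.map gt).prod * gz (toZ x)

lemma emb_mul (a b : M) : emb (a * b) = emb a * emb b := by
  rcases a with (a | ⟨g, w, x, hx⟩) <;> rcases b with (b | ⟨h, v, y, hy⟩) <;>
    simp only [core_mul_core, core_mul_word, word_mul_core, word_mul_word, emb, toZ_add,
      ← gz_mul_gz, ← gz_mul_gt, List.map_append, List.map_cons, List.prod_append, List.prod_cons,
      mul_assoc]

lemma emb_one : emb 1 = 1 := by
  rw [one_def]
  apply SemidirectProduct.ext
  · rfl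
  · rfl

/-- The list of partial sums `g, g + w₁, g + w₁ + w₂, …`. -/
def psums : (ℤ × ℤ) → List (ℤ × ℤ) → List (ℤ × ℤ)
  | g, [] => [g]
  | g, h :: w => g :: (psums h w).map (fun z => g + z)

lemma psums_inj : ∀ (w w' : List (ℤ × ℤ)) (g g' : ℤ × ℤ), psums g w = psums g' w' →
    g = g' ∧ w = w'
  | [], [], g, g', h => by simpa [psums] using h
  | [], h' :: w', g, g', h => by
    exfalso
    have := congrArg List.length h
    simp only [psums, List.length_cons, List.length_map, List.length_nil] at this
    cases w' <;> simp [psums] at this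
  | h :: w, [], g, g', hh => by
    exfalso
    have := congrArg List.length hh
    simp only [psums, List.length_cons, List.length_map, List.length_nil] at this
    cases w <;> simp [psums] at this
  | h :: w, h' :: w', g, g', hh => by
    simp only [psums, List.cons.injEq] at hh
    obtain ⟨e, hh⟩ := hh
    subst e
    have hinj : Function.Injective (fun z : ℤ × ℤ => g + z) := add_right_injective g
    have := List.map_injective_iff.mpr hinj hh
    obtain ⟨e1, e2⟩ := psums_inj w w' h h' this
    exact ⟨rfl, by rw [e1, e2]⟩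

lemma prod_eq : ∀ (w : List (ℤ × ℤ)) (g : ℤ × ℤ), gt g * (w.map gt).prod =
    ⟨FreeGroup.mk ((psums g w).map (fun z => (z, true))), Multiplicative.ofAdd (g + w.sum)⟩
  | [], g => by
    rw [List.map_nil, List.prod_nil, mul_one, List.sum_nil, add_zero]
    rfl
  | h :: w, g => by
    rw [List.map_cons, List.prod_cons, prod_eq w h]
    apply SemidirectProduct.ext
    · rw [SemidirectProduct.mul_left]
      simp only [gt, shift_mk, psums, FreeGroup.of, FreeGroup.mul_mk, List.map_map,
        List.map_cons, List.singleton_append, Function.comp_def]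
    · rw [SemidirectProduct.mul_right]
      simp only [gt, ← ofAdd_add, List.sum_cons]

lemma emb_word (g : ℤ × ℤ) (w : List (ℤ × ℤ)) (x : ℕ × ℕ) (hx : x ≠ 0) :
    emb (word g w x hx) = ⟨FreeGroup.mk ((psums g w).map (fun z => (z, true))),
      Multiplicative.ofAdd (g + w.sum + toZ x)⟩ := by
  rw [emb, prod_eq]
  apply SemidirectProduct.ext
  · rw [SemidirectProduct.mul_left]
    simp only [gz, map_one, mul_one]
  · rfl

lemma mk_inj (L L' : List (ℤ × ℤ)) (h : FreeGroup.mk (L.map (fun z => (z, true))) =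
    FreeGroup.mk (L'.map (fun z => (z, true)))) : L = L' := by
  have key : ∀ L : List (ℤ × ℤ), FreeGroup.IsReduced (L.map (fun z => (z, true))) := by
    intro L
    induction L with
    | nil => exact FreeGroup.IsReduced.nil
    | cons a L ih =>
      cases L with
      | nil => exact FreeGroup.IsReduced.singleton
      | cons b L =>
        rw [List.map_cons, List.map_cons, FreeGroup.isReduced_cons_cons]
        exact ⟨fun _ => rfl, ih⟩
  have h2 := FreeGroup.reduce.sound h
  rw [(FreeGroup.isReduced_iff_reduce_eq.mp (key L)),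
    (FreeGroup.isReduced_iff_reduce_eq.mp (key L'))] at h2
  exact List.map_injective_iff.mpr (fun a b hab => congrArg Prod.fst hab) h2

lemma psums_ne_nil (g : ℤ × ℤ) (w : List (ℤ × ℤ)) : psums g w ≠ [] := by
  cases w <;> simp [psums]

lemma emb_injective : Function.Injective emb := by
  rintro (a | ⟨g, w, x, hx⟩) (b | ⟨h, v, y, hy⟩) e
  · have h1 := congrArg SemidirectProduct.right e
    have h2 : toZ a = toZ b := Multiplicative.ofAdd.injective h1
    rw [toZ_inj h2]
  · rw [emb_word] at e
    have h1 := congrArg SemidirectProduct.left e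
    have h2 : FreeGroup.mk (([] : List (ℤ × ℤ)).map (fun z => (z, true))) =
      FreeGroup.mk ((psums h v).map (fun z => (z, true))) := h1
    exact absurd (mk_inj _ _ h2).symm (psums_ne_nil h v)
  · rw [emb_word] at e
    have h1 := congrArg SemidirectProduct.left e
    have h2 : FreeGroup.mk ((psums g w).map (fun z => (z, true))) =
      FreeGroup.mk (([] : List (ℤ × ℤ)).map (fun z => (z, true))) := h1
    exact absurd (mk_inj _ _ h2) (psums_ne_nil g w)
  · rw [emb_word, emb_word] at e
    have h1 := congrArg SemidirectProduct.left e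
    obtain ⟨e1, e2⟩ := psums_inj _ _ _ _ (mk_inj _ _ h1)
    subst e1 e2
    have h2 := Multiplicative.ofAdd.injective (congrArg SemidirectProduct.right e)
    have h3 := toZ_inj (add_left_cancel h2)
    subst h3
    rfl

/-- The embedding of `M` in `G`. -/
def embHom : M →* G where
  toFun := emb
  map_one' := emb_one
  map_mul' := emb_mul

lemma left_cancel (a b c : M) (h : a * b = a * c) : b = c := by
  apply emb_injective
  have := congrArg emb h
  rw [emb_mul, emb_mul] at this
  exact mul_left_cancel this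

instance : Countable M := by
  let f : M → (ℕ × ℕ) ⊕ ((ℤ × ℤ) × List (ℤ × ℤ) × (ℕ × ℕ)) := fun m => match m with
    | core a => Sum.inl a
    | word g w x _ => Sum.inr (g, w, x)
  have hf : Function.Injective f := by
    rintro (a | ⟨g, w, x, hx⟩) (b | ⟨h, v, y, hy⟩) e
    · simpa [f] using e
    · simp [f] at e
    · simp [f] at e
    · simpa [f] using e
  exact hf.countable

lemma mem_core_core (a c : ℕ × ℕ) : core c ∈ rightIdeal (core a) ↔ a ≤ c := by
  constructor
  · rintro ⟨b | ⟨h, v, y, hy⟩, e⟩
    · rw [core_mul_core, core.injEq] at e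
      rw [e]
      exact ⟨Nat.le_add_right _ _, Nat.le_add_right _ _⟩
    · rw [core_mul_word] at e
      exact absurd e (by simp)
  · intro h
    obtain ⟨b, rfl⟩ : ∃ b, c = a + b := ⟨c - a, (add_tsub_cancel_of_le h).symm⟩
    exact ⟨core b, rfl⟩

lemma mem_core_word (a : ℕ × ℕ) (g w x hx) : word g w x hx ∈ rightIdeal (core a) := by
  refine ⟨word (g - toZ a) w x hx, ?_⟩
  rw [core_mul_word]
  simp

lemma mem_word_core (g w x hx) (c : ℕ × ℕ) : core c ∉ rightIdeal (word g w x hx) := by
  rintro ⟨b | ⟨h, v, y, hy⟩, e⟩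
  · rw [word_mul_core] at e
    exact absurd e (by simp)
  · rw [word_mul_word] at e
    exact absurd e (by simp)

lemma mem_word_word (g w x hx h v y hy) : word h v y hy ∈ rightIdeal (word g w x hx) ↔
    g = h ∧ ((w = v ∧ x ≤ y) ∨ ∃ k u, v = w ++ k :: u) := by
  constructor
  · rintro ⟨b | ⟨k, u, z, hz⟩, e⟩
    · rw [word_mul_core] at e
      simp only [word.injEq] at e
      obtain ⟨e1, e2, e3⟩ := e
      subst e1 e2 e3
      exact ⟨rfl, Or.inl ⟨rfl, ⟨Nat.le_add_right _ _, Nat.le_add_right _ _⟩⟩⟩
    · rw [word_mul_word] at e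
      simp only [word.injEq] at e
      obtain ⟨e1, e2, e3⟩ := e
      exact ⟨e1.symm, Or.inr ⟨_, _, e2⟩⟩
  · rintro ⟨rfl, ⟨rfl, hxy⟩ | ⟨k, u, rfl⟩⟩
    · obtain ⟨b, rfl⟩ : ∃ b, y = x + b := ⟨y - x, (add_tsub_cancel_of_le hxy).symm⟩
      exact ⟨core b, rfl⟩
    · refine ⟨word (k - toZ x) u y hy, ?_⟩
      rw [word_mul_word]
      simp

lemma rightIdeal_subset {S : Type} [Monoid S] {s t : S} (h : t ∈ rightIdeal s) :
    rightIdeal t ⊆ rightIdeal s := by
  obtain ⟨y, rfl⟩ := h
  rintro _ ⟨z, rfl⟩
  exact ⟨y * z, mul_assoc _ _ _⟩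

lemma lcm_core_core (a b : ℕ × ℕ) :
    rightIdeal (core a) ∩ rightIdeal (core b) = rightIdeal (core (a ⊔ b)) := by
  ext z
  rcases z with (c | ⟨g, w, x, hx⟩)
  · rw [Set.mem_inter_iff, mem_core_core, mem_core_core, mem_core_core, sup_le_iff]
  · exact ⟨fun _ => mem_core_word _ _ _ _ _,
      fun _ => ⟨mem_core_word _ _ _ _ _, mem_core_word _ _ _ _ _⟩⟩

lemma sup_ne {x : ℕ × ℕ} (hx : x ≠ 0) (y : ℕ × ℕ) : x ⊔ y ≠ 0 := by
  intro h
  apply hx
  have h1 : x ≤ 0 := h ▸ le_sup_left
  exact le_antisymm h1 ⟨Nat.zero_le _, Nat.zero_le _⟩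

lemma lcm_word_word_same (g w x hx y hy) :
    rightIdeal (word g w x hx) ∩ rightIdeal (word g w y hy) =
      rightIdeal (word g w (x ⊔ y) (sup_ne hx y)) := by
  ext z
  rcases z with (c | ⟨h, v, z, hz⟩)
  · exact ⟨fun h => absurd h.1 (mem_word_core _ _ _ _ _),
      fun h => absurd h (mem_word_core _ _ _ _ _)⟩
  · rw [Set.mem_inter_iff, mem_word_word, mem_word_word, mem_word_word, sup_le_iff]
    tauto

lemma rightLCM : IsRightLCM M := by
  refine ⟨left_cancel, ?_⟩
  have hsub : ∀ s t : M, t ∈ rightIdeal s → rightIdeal s ∩ rightIdeal t = rightIdeal t :=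
    fun s t h => Set.inter_eq_right.mpr (rightIdeal_subset h)
  have hsub' : ∀ s t : M, s ∈ rightIdeal t → rightIdeal s ∩ rightIdeal t = rightIdeal s :=
    fun s t h => Set.inter_eq_left.mpr (rightIdeal_subset h)
  rintro (a | ⟨g, w, x, hx⟩) (b | ⟨h, v, y, hy⟩)
  · exact Or.inr ⟨_, lcm_core_core a b⟩
  · exact Or.inr ⟨_, hsub _ _ (mem_core_word _ _ _ _ _)⟩
  · exact Or.inr ⟨_, hsub' _ _ (mem_core_word _ _ _ _ _)⟩
  · by_cases hgh : g = h
    · subst hgh
      by_cases hwv : w = v
      · subst hwv
        exact Or.inr ⟨_, lcm_word_word_same g w x hx y hy⟩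
      · by_cases h1 : ∃ k u, v = w ++ k :: u
        · exact Or.inr ⟨_, hsub _ _ ((mem_word_word _ _ _ _ _ _ _ _).mpr ⟨rfl, Or.inr h1⟩)⟩
        · by_cases h2 : ∃ k u, w = v ++ k :: u
          · exact Or.inr ⟨_, hsub' _ _ ((mem_word_word _ _ _ _ _ _ _ _).mpr ⟨rfl, Or.inr h2⟩)⟩
          · left
            rw [Set.eq_empty_iff_forall_notMem]
            rintro (c | ⟨k, u, z, hz⟩) ⟨m1, m2⟩
            · exact mem_word_core _ _ _ _ _ m1
            · rw [mem_word_word] at m1 m2
              have p1 : w <+: u := by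
                rcases m1.2 with ⟨rfl, -⟩ | ⟨k, u', rfl⟩
                · exact List.prefix_refl _
                · exact List.prefix_append _ _
              have p2 : v <+: u := by
                rcases m2.2 with ⟨rfl, -⟩ | ⟨k, u', rfl⟩
                · exact List.prefix_refl _
                · exact List.prefix_append _ _
              rcases List.prefix_or_prefix_of_prefix p1 p2 with ⟨l, hl⟩ | ⟨l, hl⟩
              · cases l with
                | nil => exact hwv (by simpa using hl)
                | cons k l => exact h1 ⟨k, l, hl.symm⟩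
              · cases l with
                | nil => exact hwv (by simpa using hl.symm)
                | cons k l => exact h2 ⟨k, l, hl.symm⟩
    · left
      rw [Set.eq_empty_iff_forall_notMem]
      rintro (c | ⟨k, u, z, hz⟩) ⟨m1, m2⟩
      · exact mem_word_core _ _ _ _ _ m1
      · rw [mem_word_word] at m1 m2
        exact hgh (m1.1.trans m2.1.symm)

lemma core_mem (a : ℕ × ℕ) : core a ∈ coreSet M := by
  rintro (b | ⟨h, v, y, hy⟩)
  · exact ⟨core (a ⊔ b), (mem_core_core _ _).mpr le_sup_left, (mem_core_core _ _).mpr le_sup_right⟩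
  · exact ⟨word h v y hy, mem_core_word _ _ _ _ _, ⟨1, (mul_one _).symm⟩⟩

lemma word_not_mem (g w x hx) : word g w x hx ∉ coreSet M := by
  intro h
  obtain ⟨z, m1, m2⟩ := h (word (g + (1, 0)) w x hx)
  rcases z with (c | ⟨k, u, z, hz⟩)
  · exact mem_word_core _ _ _ _ _ m1
  · rw [mem_word_word] at m1 m2
    have := m1.1.trans m2.1.symm
    have h1 := congrArg Prod.fst this
    simp at h1

lemma isUnit_core (b : ℕ × ℕ) : IsUnit (core b) ↔ b = 0 := by
  constructor
  · rintro ⟨u, hu⟩
    have h1 : core b * (↑u⁻¹ : M) = 1 := by rw [← hu]; exact u.mul_inv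
    rcases hy : (↑u⁻¹ : M) with (c | ⟨k, v, z, hz⟩)
    · rw [hy, core_mul_core, one_def, core.injEq] at h1
      have h2 := congrArg Prod.fst h1
      have h3 := congrArg Prod.snd h1
      simp at h2 h3
      ext
      · simp [h2.1]
      · simp [h3.1]
    · rw [hy, core_mul_word, one_def] at h1
      exact absurd h1 (by simp)
  · rintro rfl
    exact isUnit_one

lemma mem_irr (g w x hx) (h : ∀ y b : ℕ × ℕ, y ≠ 0 → x = y + b → b = 0) :
    word g w x hx ∈ coreIrreducibles M := by
  refine ⟨word_not_mem g w x hx, ?_⟩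
  rintro (a | ⟨h', v, y, hy⟩) (b | ⟨k, u, z, hz⟩) hb e
  · rw [core_mul_core] at e
    exact absurd e (by simp)
  · exact absurd hb (word_not_mem _ _ _ _)
  · rw [word_mul_core] at e
    simp only [word.injEq] at e
    rw [isUnit_core]
    exact h y b hy e.2.2
  · exact absurd hb (word_not_mem _ _ _ _)

lemma not_irr : word 0 [] (1, 1) (by simp) ∉ coreIrreducibles M := by
  intro h
  have h1 := h.2 (word 0 [] (1, 0) (by simp)) (core (0, 1)) (core_mem _) (by
    rw [word_mul_core]; rfl)
  rw [isUnit_core] at h1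
  simp at h1

lemma e1_irr : ∀ y b : ℕ × ℕ, y ≠ 0 → (1, 0) = y + b → b = 0 := by
  intro y b hy h
  have h1 := congrArg Prod.fst h
  have h2 := congrArg Prod.snd h
  simp at h1 h2
  have h3 : y.1 ≠ 0 := fun h4 => hy (Prod.ext h4 (by simp; omega))
  ext <;> simp <;> omega

lemma e2_irr : ∀ y b : ℕ × ℕ, y ≠ 0 → (0, 1) = y + b → b = 0 := by
  intro y b hy h
  have h1 := congrArg Prod.fst h
  have h2 := congrArg Prod.snd h
  simp at h1 h2
  have h3 : y.2 ≠ 0 := fun h4 => hy (Prod.ext (by simp; omega) h4)
  ext <;> simp <;> omega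

lemma coreFactorable : CoreFactorable M := by
  rintro (a | ⟨g, w, x, hx⟩)
  · exact ⟨1, core a, Or.inr rfl, core_mem a, (one_mul _).symm⟩
  · by_cases h : x.1 = 0
    · have h2 : x.2 ≠ 0 := fun h2 => hx (Prod.ext h h2)
      refine ⟨word g w (0, 1) (by simp), core (0, x.2 - 1), Or.inl (mem_irr _ _ _ _ e2_irr),
        core_mem _, ?_⟩
      rw [word_mul_core]
      simp only [word.injEq, true_and]
      ext <;> simp <;> omega
    · refine ⟨word g w (1, 0) (by simp), core (x.1 - 1, x.2), Or.inl (mem_irr _ _ _ _ e1_irr),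
        core_mem _, ?_⟩
      rw [word_mul_core]
      simp only [word.injEq, true_and]
      ext <;> simp <;> omega

lemma not_interClosed : ¬ InterClosed M := by
  intro h
  exact not_irr (h (word 0 [] (1, 0) (by simp)) (word 0 [] (0, 1) (by simp)) _
    (mem_irr _ _ _ _ e1_irr) (mem_irr _ _ _ _ e2_irr)
    (lcm_word_word_same 0 [] (1, 0) (by simp) (0, 1) (by simp)))

end M

/-- There is a countable right LCM monoid, embeddable in a group and core factorable, whose
set of core irreducible elements is not closed under right LCMs. -/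
theorem result : ∃ (S : Type) (_ : Monoid S), Countable S ∧ IsRightLCM S ∧
    (∃ (H : Type) (_ : Group H) (f : S →* H), Function.Injective f) ∧
    CoreFactorable S ∧ ¬ InterClosed S :=
  ⟨M, M.instMonoid, inferInstance, M.rightLCM, ⟨M.G, inferInstance, M.embHom, M.emb_injective⟩,
    M.coreFactorable, M.not_interClosed⟩

end Pool.Agent.Results.MP_4a71d8_al.NotInterClosed
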